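import Pool.Agent.H44.DU.Targets

/-!
# Module DI of the board du_modules
-/

set_option autoImplicit false

namespace Pool.Agent.H12.DU.DI

open Pool.Agent.H44.DU Set

variable {n : ℕ} (S : Surf n)

theorem pf_DI (h1 : T_BN) (h2 : T_K1) (h3 : T_LH) : T_DI := by
  intro n S t I hG hI hgl r x hx c d hcd hc hd
  by_contra hno
  push Not at hno
  obtain ⟨N, hN⟩ := h2 n S t I hI
  set W : Set (List (Side n)) := {w | Surf.EWord I (r :: w) ∧ ∃ y, S.Run t (r :: w) y} with hW
  have hWfin : W.Finite := by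
    refine (List.finite_length_le (Side n) N).subset ?_
    rintro w ⟨hw1, y, hw2⟩
    have := hN (r :: w) y hw1 hw2
    simp only [List.length_cons] at this
    show w.length ≤ N
    omega
  have hrun : ∀ w ∈ W, ∀ y, S.Run t (r :: w) y ↔ y ∈ Ioo (S.lo t (r :: w)) (S.hi t (r :: w)) := by
    rintro w ⟨hw1, y0, hw2⟩ y
    have h4 := (h3 n S t (r :: w) (by simp) y0).mp hw2
    rw [h3 n S t (r :: w) (by simp) y]
    exact ⟨fun h => h.2, fun h => ⟨h4.1, h⟩⟩
  set O : Set ℝ := {y | S.Ex t I r y} with hO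
  have hOeq : O = ⋃ w ∈ W, Ioo (S.lo t (r :: w)) (S.hi t (r :: w)) := by
    ext y
    simp only [mem_iUnion, exists_prop]
    constructor
    · rintro ⟨w, hw1, hw2⟩
      have hw : w ∈ W := ⟨hw1, y, hw2⟩
      exact ⟨w, hw, (hrun w hw y).mp hw2⟩
    · rintro ⟨w, hw, hy⟩
      exact ⟨w, hw.1, (hrun w hw y).mpr hy⟩
  have hOopen : IsOpen O := by
    rw [hOeq]
    exact isOpen_biUnion fun w _ => isOpen_Ioo
  have hKeq : closure O = ⋃ w ∈ W, Icc (S.lo t (r :: w)) (S.hi t (r :: w)) := by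
    rw [hOeq, hWfin.closure_biUnion]
    refine iUnion₂_congr ?_
    intro w hw
    have hne : S.lo t (r :: w) ≠ S.hi t (r :: w) := by
      obtain ⟨y, hy⟩ := hw.2
      have := (hrun w hw y).mp hy
      exact (this.1.trans this.2).ne
    exact closure_Ioo hne
  have hdisj : ∀ y, c < y → y < d → y ∉ closure O := by
    intro y hy1 hy2 hy3
    rw [mem_closure_iff] at hy3
    obtain ⟨z, hz1, hz2⟩ := hy3 (Ioo c d) isOpen_Ioo ⟨hy1, hy2⟩
    exact hno z hz1.1 hz1.2 hz2
  have hOJ : ∀ y ∈ O, y ∈ Ioo (xi t (S.Q r)) (xi t (S.P r)) := by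
    rintro y ⟨w, _, hw⟩
    exact hw.1
  have hpre : IsPreconnected (Ioo (xi t (S.Q r)) (xi t (S.P r))) := isPreconnected_Ioo
  have hzex : ∃ z ∈ Ioo (xi t (S.Q r)) (xi t (S.P r)), z ∈ closure O ∧ z ∉ interior (closure O) := by
    by_contra hcon
    push Not at hcon
    have h5 := hpre (interior (closure O)) (closure O)ᶜ isOpen_interior isClosed_closure.isOpen_compl
      (by
        intro z hz
        by_cases hzc : z ∈ closure O
        · exact Or.inl (hcon z hz hzc)
        · exact Or.inr hzc)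
      ⟨x, hOJ x hx, interior_mono subset_closure (by rw [hOopen.interior_eq]; exact hx)⟩
      ⟨(c + d) / 2, ⟨by linarith, by linarith⟩, hdisj _ (by linarith) (by linarith)⟩
    obtain ⟨z, _, hz1, hz2⟩ := h5
    exact hz2 (interior_subset hz1)
  obtain ⟨z, hzJ, hzK, hzi⟩ := hzex
  have hzK' := hzK
  rw [hKeq] at hzK'
  simp only [mem_iUnion, exists_prop] at hzK'
  obtain ⟨w, hw, hzw⟩ := hzK'
  apply h1 n S t I hG hI hgl r z w
  refine ⟨hw.1, hzJ, hw.2, ?_, hzw.1, hzw.2, ?_⟩
  · intro hrz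
    apply hzi
    have : z ∈ O := ⟨w, hw.1, hrz⟩
    exact interior_mono subset_closure (by rw [hOopen.interior_eq]; exact this)
  · intro ε hε
    have h6 : ¬ Ioo (z - ε) (z + ε) ⊆ closure O := by
      intro hsub
      apply hzi
      rw [mem_interior]
      exact ⟨_, hsub, isOpen_Ioo, ⟨by linarith, by linarith⟩⟩
    rw [not_subset] at h6
    obtain ⟨y, hy, hyK⟩ := h6
    have h7 : (closure O)ᶜ ∈ nhds y := isClosed_closure.isOpen_compl.mem_nhds hyK
    rw [Metric.mem_nhds_iff] at h7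
    obtain ⟨δ, hδ, hball⟩ := h7
    have hm : 0 < min δ (min ((y - (z - ε)) / 2) (((z + ε) - y) / 2)) := by
      refine lt_min hδ (lt_min ?_ ?_)
      · have := hy.1; linarith
      · have := hy.2; linarith
    have m1 := min_le_left δ (min ((y - (z - ε)) / 2) (((z + ε) - y) / 2))
    have m2 := (min_le_right δ (min ((y - (z - ε)) / 2) (((z + ε) - y) / 2))).trans
      (min_le_left _ _)
    have m3 := (min_le_right δ (min ((y - (z - ε)) / 2) (((z + ε) - y) / 2))).trans
      (min_le_right _ _)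
    set m := min δ (min ((y - (z - ε)) / 2) (((z + ε) - y) / 2)) with hmdef
    have hy1 := hy.1
    have hy2 := hy.2
    refine ⟨y - m, y + m, by linarith, by linarith, by linarith, ?_⟩
    intro y' hy1' hy2' hex
    have h8 : y' ∈ Metric.ball y δ := by
      rw [Metric.mem_ball, Real.dist_eq, abs_lt]
      exact ⟨by linarith, by linarith⟩
    exact hball h8 (subset_closure hex)

end Pool.Agent.H12.DU.DI
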