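import Pool.Agent.H44.DU.Targets

/-!
# Module DV of the board du_modules
-/

set_option autoImplicit false

namespace Pool.Agent.H12.DU.DV

open Pool.Agent.H44.DU

variable {n : ℕ} (S : Surf n)

theorem dev_nil (c : Side n) : S.dev [] c = S.P c := by
  simp [Surf.dev, Surf.A, Surf.B]

theorem dev_cons (r : Side n) (u : List (Side n)) (c : Side n) :
    S.dev (r :: u) c = (S.dev u c - S.b r) / (S.a r : ℂ) := by
  have h1 : (S.a r : ℂ) ≠ 0 := S.a_ne r
  have h2 : (S.A u : ℂ) ≠ 0 := by exact_mod_cast (S.A_pos u).ne'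
  simp only [Surf.dev, Surf.A, Surf.B]
  push_cast
  field_simp
  ring

theorem xi_dev_cons (t : ℝ) (r : Side n) (u : List (Side n)) (c : Side n) :
    xi t (S.dev (r :: u) c) = (xi t (S.dev u c) - xi t (S.b r)) / S.a r := by
  rw [dev_cons, xi_div, xi_sub]

theorem shift_le (t : ℝ) (r : Side n) {x y : ℝ} (h : x ≤ y) :
    (x - xi t (S.b r)) / S.a r ≤ (y - xi t (S.b r)) / S.a r :=
  div_le_div_of_nonneg_right (by linarith) (S.a_pos r).le

theorem pf_DV : T_DV := by
  intro n S t w hw
  induction w with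
  | nil => exact absurd rfl hw
  | cons r w ih =>
    cases w with
    | nil =>
      refine ⟨⟨[], r, [], rfl, ?_⟩, ⟨[], r, [], rfl, ?_⟩, ?_⟩
      · rw [dev_nil, Surf.P_nx]; rfl
      · rw [dev_nil]; rfl
      · intro u r0 w' h
        cases u with
        | nil =>
          simp only [List.nil_append, List.cons.injEq] at h
          obtain ⟨h1, _⟩ := h
          subst h1
          rw [dev_nil, dev_nil, Surf.P_nx]
          exact ⟨le_rfl, le_rfl⟩
        | cons a u => simp at h
    | cons r' w =>
      obtain ⟨⟨u1, s1, v1, e1, l1⟩, ⟨u2, s2, v2, e2, l2⟩, h3⟩ := ih (by simp)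
      have hlo : S.lo t (r :: r' :: w) =
        max (xi t (S.Q r)) ((S.lo t (r' :: w) - xi t (S.b r)) / S.a r) := rfl
      have hhi : S.hi t (r :: r' :: w) =
        min (xi t (S.P r)) ((S.hi t (r' :: w) - xi t (S.b r)) / S.a r) := rfl
      refine ⟨?_, ?_, ?_⟩
      · rcases max_choice (xi t (S.Q r)) ((S.lo t (r' :: w) - xi t (S.b r)) / S.a r) with h | h
        · refine ⟨[], r, r' :: w, rfl, ?_⟩
          rw [hlo, h, dev_nil, Surf.P_nx]
        · refine ⟨r :: u1, s1, v1, by rw [e1]; rfl, ?_⟩
          rw [hlo, h, xi_dev_cons, l1]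
      · rcases min_choice (xi t (S.P r)) ((S.hi t (r' :: w) - xi t (S.b r)) / S.a r) with h | h
        · refine ⟨[], r, r' :: w, rfl, ?_⟩
          rw [hhi, h, dev_nil]
        · refine ⟨r :: u2, s2, v2, by rw [e2]; rfl, ?_⟩
          rw [hhi, h, xi_dev_cons, l2]
      · intro u r0 w' h
        cases u with
        | nil =>
          simp only [List.nil_append, List.cons.injEq] at h
          obtain ⟨h1, _⟩ := h
          subst h1
          rw [dev_nil, dev_nil, Surf.P_nx, hlo, hhi]
          exact ⟨le_max_left _ _, min_le_left _ _⟩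
        | cons a u =>
          simp only [List.cons_append, List.cons.injEq] at h
          obtain ⟨h1, h2⟩ := h
          subst h1
          obtain ⟨h4, h5⟩ := h3 u r0 w' h2
          rw [xi_dev_cons, xi_dev_cons, hlo, hhi]
          exact ⟨le_max_of_le_right (shift_le S t r h4), min_le_of_right_le (shift_le S t r h5)⟩

end Pool.Agent.H12.DU.DV
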